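import Mathlib
import Pool.Agent.H199.Mac.Cor

set_option autoImplicit false
open Filter
open Pool.Agent.H199.Mac

namespace Pool.Agent.Results.MP_e061a3_an.BoundedPathGrowth

/-- A nonzero entire gap series with finite sum of reciprocal exponents which is bounded on some
curve going to infinity has (a) at least `ε log r` entropy in the exponents up to `log M(r)`, for
all large `r`, (b) growth so fast that `∑ 1 / log log log M(2^k)` converges, and (c) in particular
`log log M(r) > r^κ` for every `κ` and all large `r`. -/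
theorem result :
    ∀ p : ℕ → ℕ, StrictMono p → (∀ n, 0 < p n) →
      Summable (fun n => 1 / (p n : ℝ)) →
      ∀ a : ℕ → ℂ, (∀ z : ℂ, Summable (fun n => a n * z ^ (p n))) →
        (∃ n, a n ≠ 0) →
        ∀ γ : ℝ → ℂ, ContinuousOn γ (Set.Ici 0) →
          Tendsto (fun t => ‖γ t‖) atTop atTop →
          (∃ M : ℝ, ∀ t : ℝ, 0 ≤ t → ‖∑' n, a n * (γ t) ^ (p n)‖ ≤ M) →
          (∃ ε : ℝ, 0 < ε ∧ ∀ᶠ r : ℝ in atTop,
            ε * Real.log r < ent p (Real.log (maxMod p a r))) ∧
          Summable (fun k : ℕ => 1 / Real.log (Real.log (Real.log (maxMod p a (2 ^ k))))) ∧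
          ∀ κ : ℝ, ∀ᶠ r : ℝ in atTop, r ^ κ < Real.log (Real.log (maxMod p a r)) := by
  intro p hp hp0 hsum a ha hne γ hγ hinf hbd
  refine ⟨?_, ?_, ?_⟩
  · by_contra hcon
    refine main p hp hp0 a ha hne ?_ γ hγ hinf hbd
    intro ε hε hno
    apply hcon
    refine ⟨ε, hε, hno.mono fun r hr => ?_⟩
    exact not_le.mp hr
  · by_contra hcon
    exact main p hp hp0 a ha hne (cond_of_growth p hp hp0 hsum a ha hne hcon) γ hγ hinf hbd
  · intro κ
    by_contra hcon
    refine main p hp hp0 a ha hne (cond_of_pow p hp hp0 hsum a ha hne κ ?_) γ hγ hinf hbd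
    intro hno
    apply hcon
    exact hno.mono fun r hr => not_le.mp hr

end Pool.Agent.Results.MP_e061a3_an.BoundedPathGrowth
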